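import Pool.Agent.H46.Cons.Main

/-!
# Consensus from single-reader single-writer registers needs `Ω(n log n)` expected total work

The model is in `Pool/Agent/H46/Cons/Model.lean`.  The adversary lets the processors run one after
the other in a random order, each for a long time; the first one has input `0`, the others have
input `1`.  A processor which has not yet read a register written by an earlier processor cannot
distinguish its execution from a solo execution, in which it has to output its own input; so it
has to find one of the earlier processors first, and every read looks at one writer only.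
-/

namespace Pool.Agent.Results.MP_217fdb_lc.NLogN

open Pool.Agent.H46.Cons

theorem harmonic_half (k : ℕ) :
    ((harmonic k : ℚ) : ℝ) ≤ 2 * (((harmonic (k + 1) : ℚ) : ℝ) - 1) := by
  induction k with
  | zero => simp [harmonic]
  | succ k ih =>
    rw [harmonic_succ (k + 1)]
    rw [harmonic_succ k] at ih ⊢
    push_cast at ih ⊢
    have h : ((k : ℝ) + 1)⁻¹ ≤ 2 * ((k : ℝ) + 1 + 1)⁻¹ := by
      rw [← div_eq_mul_inv, inv_eq_one_div, div_le_div_iff₀ (by positivity) (by positivity)]
      linarith [(Nat.cast_nonneg k : (0 : ℝ) ≤ k)]
    linarith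

/-- For every number `n ≥ 1` of processors the least cost `W n` of randomized consensus with
single-reader single-writer registers against an oblivious adversary satisfies
`W n ≥ n (H_n - 1) ≥ (n log n) / 2`, where `H_n` is the `n`-th harmonic number; for every
algorithm already the expected total number of read operations, for suitable inputs and schedules,
is at least `n (H_n - 1)` up to an arbitrarily small error. -/
theorem result (n : ℕ) (hn : 1 ≤ n) :
    ENNReal.ofReal (n * (((harmonic n : ℚ) : ℝ) - 1)) ≤ W n ∧
    ENNReal.ofReal (n * Real.log n / 2) ≤ W n ∧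
    ∀ A : Algorithm n, A.Solves → ENNReal.ofReal (n * (((harmonic n : ℚ) : ℝ) - 1)) ≤
      ⨆ (b : Fin n → Bool) (s : ℕ → Fin n), expectedReads A b s := by
  haveI : NeZero n := ⟨by omega⟩
  have h3 : ∀ A : Algorithm n, A.Solves → ENNReal.ofReal (n * (((harmonic n : ℚ) : ℝ) - 1)) ≤
      ⨆ (b : Fin n → Bool) (s : ℕ → Fin n), expectedReads A b s := fun A hA => reads_lower hA
  have h1 : ENNReal.ofReal (n * (((harmonic n : ℚ) : ℝ) - 1)) ≤ W n := by
    refine le_iInf₂ (fun A hA => (h3 A hA).trans ?_)
    refine iSup₂_mono (fun b s => ?_)
    refine MeasureTheory.lintegral_mono (fun ω => ?_)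
    refine ENNReal.tsum_le_tsum (fun t => ?_)
    exact_mod_cast isRead_le_isAccess _ _
  refine ⟨h1, (ENNReal.ofReal_le_ofReal ?_).trans h1, h3⟩
  obtain ⟨k, rfl⟩ : ∃ k, n = k + 1 := ⟨n - 1, by omega⟩
  have h4 := log_add_one_le_harmonic k
  have h5 := harmonic_half k
  have h6 : Real.log ((k + 1 : ℕ) : ℝ) ≤ 2 * (((harmonic (k + 1) : ℚ) : ℝ) - 1) := h4.trans h5
  have h7 : (0 : ℝ) ≤ ((k + 1 : ℕ) : ℝ) := by positivity
  nlinarith [mul_le_mul_of_nonneg_left h6 h7]

end Pool.Agent.Results.MP_217fdb_lc.NLogN
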